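import Mathlib

/-!
# A section ratio criterion for the LCM property

`LCM(G)` is the set of the `x ∈ G` such that the order of `x ^ n * y` divides the least common
multiple of the orders of `x ^ n` and of `y`, for all `n ≥ 1` and `y ∈ G`. The group `G` is an LCM
group if `LCM(G) = G`. The ratio of `G` is `|LCM(G)| / |G|`, and `lcmStar G` is the minimum of the
ratios of the sections of `G`. We show that a finite `p`-group `G` with
`lcmStar G > 1 - 2 (p - 1) / p ^ 2` is an LCM group.

Idea of the proof. Let `S` be a subgroup of `G` which is not an LCM group and is minimal with this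
property. There are `x, y ∈ S` and `L`, with `x` and `y` in `E = {s ∈ S | s ^ L = 1}` and with
`x * y ∉ E`. By minimality `S` is generated by `x` and `y`, and it is not cyclic, so there are
different maximal subgroups `A ∋ x` and `B ∋ y` of `S`. As `A`, `B` are LCM groups, `E ∩ A` and
`E ∩ B` are subgroups, and they are normal in `S`. So `S = (E ∩ A) (E ∩ B)`, which gives
`A ⊆ E` and `B ⊆ E`. If `u` is in `A` but not in `B` then each element of `S` is `u ^ n * b` with
`b ∈ B`, so `u` is not in `LCM(S)`, as otherwise `S ⊆ E`. The same holds for the elements of `B`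
which are not in `A`, and there are `2 (p - 1) |S| / p ^ 2` such elements at least.
-/

set_option autoImplicit false

namespace Pool.Agent.Results.MP_391eb1_al.SectionRatio

universe w

/-- The set `LCM(G)` of all `x` such that the order of `x ^ n * y` divides the least common multiple
of the orders of `x ^ n` and of `y`, for all positive integers `n` and all `y`. -/
def lcmSet (G : Type w) [Group G] : Set G :=
  {x | ∀ n : ℕ, 0 < n → ∀ y : G, orderOf (x ^ n * y) ∣ Nat.lcm (orderOf (x ^ n)) (orderOf y)}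

/-- `G` is an LCM group if `LCM(G) = G`. -/
def IsLCM (G : Type w) [Group G] : Prop := lcmSet G = Set.univ

/-- The ratio `|LCM(G)| / |G|`. -/
noncomputable def ratio (G : Type w) [Group G] : ℝ := (Nat.card (lcmSet G) : ℝ) / Nat.card G

/-- The infimum of the ratios of the sections `H ⧸ K` of `G`, where `H` is a subgroup of `G` and `K`
is a normal subgroup of `H`. For a finite group `G` it is the minimum. -/
noncomputable def lcmStar (G : Type w) [Group G] : ℝ :=
  sInf {r : ℝ | ∃ (H : Subgroup G) (K : Subgroup H) (_ : K.Normal), r = ratio (H ⧸ K)}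

theorem mem_lcmSet_iff {G H : Type w} [Group G] [Group H] (e : G ≃* H) (x : G) :
    e x ∈ lcmSet H ↔ x ∈ lcmSet G := by
  constructor
  · intro h n hn y
    have h1 := h n hn (e y)
    rwa [← map_pow, ← map_mul, MulEquiv.orderOf_eq, MulEquiv.orderOf_eq, MulEquiv.orderOf_eq] at h1
  · intro h n hn y
    have h1 := h n hn (e.symm y)
    rw [← MulEquiv.orderOf_eq e, ← MulEquiv.orderOf_eq e (x ^ n),
      ← MulEquiv.orderOf_eq e (e.symm y), map_mul, map_pow, MulEquiv.apply_symm_apply] at h1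
    exact h1

theorem ratio_congr {G H : Type w} [Group G] [Group H] (e : G ≃* H) : ratio G = ratio H := by
  unfold ratio
  rw [Nat.card_congr e.toEquiv]
  congr 2
  apply Nat.card_congr
  exact e.toEquiv.subtypeEquiv fun x => (mem_lcmSet_iff e x).symm

theorem isLCM_congr {G H : Type w} [Group G] [Group H] (e : G ≃* H) (h : IsLCM G) : IsLCM H := by
  apply Set.eq_univ_of_forall
  intro y
  have h1 : e.symm y ∈ lcmSet G := by
    have : lcmSet G = Set.univ := h
    rw [this]
    trivial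
  rw [← mem_lcmSet_iff e, MulEquiv.apply_symm_apply] at h1
  exact h1

theorem ratio_nonneg (G : Type w) [Group G] : 0 ≤ ratio G := by
  unfold ratio
  positivity

theorem lcmStar_le {G : Type w} [Group G] (H : Subgroup G) : lcmStar G ≤ ratio H := by
  apply csInf_le
  · refine ⟨0, ?_⟩
    rintro r ⟨H, K, hK, rfl⟩
    exact ratio_nonneg _
  · exact ⟨H, ⊥, inferInstance, ratio_congr (QuotientGroup.quotientBot (G := H)).symm⟩

/-- the elements of `H` with `s ^ L = 1` -/
def tor {S : Type w} [Group S] (H : Subgroup S) (hH : IsLCM H) (L : ℕ) : Subgroup S where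
  carrier := {s | s ∈ H ∧ s ^ L = 1}
  one_mem' := ⟨H.one_mem, one_pow L⟩
  mul_mem' := by
    rintro a b ⟨ha, ha'⟩ ⟨hb, hb'⟩
    refine ⟨H.mul_mem ha hb, ?_⟩
    have h1 : (⟨a, ha⟩ : H) ∈ lcmSet H := by
      have : lcmSet H = Set.univ := hH
      rw [this]
      trivial
    have h2 := h1 1 one_pos ⟨b, hb⟩
    rw [pow_one, ← Subgroup.orderOf_coe, ← Subgroup.orderOf_coe, ← Subgroup.orderOf_coe] at h2
    change orderOf (a * b) ∣ Nat.lcm (orderOf a) (orderOf b) at h2
    rw [← orderOf_dvd_iff_pow_eq_one]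
    exact h2.trans (Nat.lcm_dvd (orderOf_dvd_of_pow_eq_one ha') (orderOf_dvd_of_pow_eq_one hb'))
  inv_mem' := by
    rintro a ⟨ha, ha'⟩
    exact ⟨H.inv_mem ha, by rw [inv_pow, ha', inv_one]⟩

theorem tor_normal {S : Type w} [Group S] (H : Subgroup S) (hH : IsLCM H) (L : ℕ) [H.Normal] :
    (tor H hH L).Normal := by
  constructor
  rintro n ⟨hn, hn'⟩ g
  refine ⟨Subgroup.Normal.conj_mem inferInstance n hn g, ?_⟩
  rw [conj_pow, hn', mul_one, mul_inv_cancel]

/-- if `S` is generated by the elements `x ∈ E ∩ A` and `y ∈ E ∩ B` then `A ⊆ E` -/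
theorem sub_tor {S : Type w} [Group S] (A B : Subgroup S) (hA : IsLCM A) (hB : IsLCM B) (L : ℕ)
    [A.Normal] [B.Normal] (x y : S) (hx : x ∈ A) (hx' : x ^ L = 1) (hy : y ∈ B) (hy' : y ^ L = 1)
    (hgen : Subgroup.closure {x, y} = ⊤) (m : S) (hm : m ∈ A) : m ^ L = 1 := by
  have := tor_normal A hA L
  have := tor_normal B hB L
  have h1 : tor A hA L ⊔ tor B hB L = ⊤ := by
    rw [eq_top_iff, ← hgen, Subgroup.closure_le]
    rintro z (rfl | hz)
    · exact (le_sup_left : tor A hA L ≤ tor A hA L ⊔ tor B hB L) ⟨hx, hx'⟩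
    · rw [Set.mem_singleton_iff] at hz
      subst hz
      exact (le_sup_right : tor B hB L ≤ tor A hA L ⊔ tor B hB L) ⟨hy, hy'⟩
  have h2 : m ∈ ((tor A hA L ⊔ tor B hB L : Subgroup S) : Set S) := by
    rw [h1]
    trivial
  rw [Subgroup.mul_normal] at h2
  obtain ⟨a, ha, b, hb, hab⟩ := h2
  change a * b = m at hab
  have hbA : b ∈ A := by
    have : b = a⁻¹ * m := by rw [← hab]; group
    rw [this]
    exact A.mul_mem (A.inv_mem ha.1) hm
  have h3 : b ∈ tor A hA L := ⟨hbA, hb.2⟩
  rw [← hab]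
  exact ((tor A hA L).mul_mem ha h3).2

/-- the elements of `A` outside `B` are not in `LCM(S)` -/
theorem not_mem {S : Type w} [Group S] [Finite S] {p : ℕ} (hp : p.Prime) (A B : Subgroup S) (L : ℕ)
    [B.Normal] (hBi : B.index = p) (hA : ∀ m ∈ A, m ^ L = 1) (hB : ∀ m ∈ B, m ^ L = 1)
    (hS : ∃ s : S, s ^ L ≠ 1) (u : S) (huA : u ∈ A) (huB : u ∉ B) : u ∉ lcmSet S := by
  intro hu
  obtain ⟨s, hs⟩ := hS
  apply hs
  have := Fact.mk hp
  have h1 : Nat.card (S ⧸ B) = p := by rw [← hBi]; rfl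
  have h2 : (u : S ⧸ B) ≠ 1 := by
    intro h
    exact huB ((QuotientGroup.eq_one_iff u).1 h)
  have h3 : ((s : S) : S ⧸ B) ∈ Subgroup.zpowers (u : S ⧸ B) :=
    mem_zpowers_of_prime_card h1 h2
  rw [← mem_powers_iff_mem_zpowers] at h3
  obtain ⟨n, hn⟩ := h3
  change (u : S ⧸ B) ^ n = (s : S ⧸ B) at hn
  -- a positive exponent
  set k := n + Nat.card (S ⧸ B) with hk
  have hk0 : 0 < k := by
    have := Nat.card_pos (α := S ⧸ B)
    omega
  have hk1 : ((u ^ k : S) : S ⧸ B) = (s : S ⧸ B) := by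
    rw [QuotientGroup.mk_pow, hk, pow_add, hn, pow_card_eq_one', mul_one]
  have hmem : (u ^ k)⁻¹ * s ∈ B := QuotientGroup.eq.1 hk1
  have h4 := hu k hk0 ((u ^ k)⁻¹ * s)
  rw [mul_inv_cancel_left] at h4
  rw [← orderOf_dvd_iff_pow_eq_one]
  refine h4.trans (Nat.lcm_dvd ?_ ?_)
  · exact orderOf_dvd_of_pow_eq_one (hA _ (A.pow_mem huA k))
  · exact orderOf_dvd_of_pow_eq_one (hB _ hmem)

theorem exists_max {S : Type w} [Group S] [Finite S] {p N : ℕ} (hp : p.Prime)
    (hN : Nat.card S = p ^ (N + 1)) (H : Subgroup S) (hH : H ≠ ⊤) :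
    ∃ A : Subgroup S, H ≤ A ∧ A.Normal ∧ A.index = p ∧ Nat.card A = p ^ N := by
  have := Fact.mk hp
  obtain ⟨k, hk, hk'⟩ := (Nat.dvd_prime_pow hp).1 (hN ▸ Subgroup.card_subgroup_dvd_card H)
  have hkN : k ≤ N := by
    rcases Nat.lt_or_ge N k with h | h
    · exfalso
      apply hH
      apply Subgroup.eq_top_of_card_eq
      rw [hk', hN]
      congr 1
      omega
    · exact h
  obtain ⟨A, hA, hHA⟩ := Sylow.exists_subgroup_card_pow_prime_le p
    (by rw [hN]; exact pow_dvd_pow p (Nat.le_succ N)) H hk' hkN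
  have hi : A.index = p := by
    have h1 := A.card_mul_index
    rw [hA, hN, pow_succ] at h1
    exact Nat.eq_of_mul_eq_mul_left (pow_pos hp.pos N) h1
  refine ⟨A, hHA, ?_, hi, hA⟩
  apply Subgroup.normal_of_index_eq_minFac_card
  rw [hi, hN, hp.pow_minFac (Nat.succ_ne_zero N)]

theorem card_diff {S : Type w} [Group S] [Finite S] {p N : ℕ} (hp : p.Prime) (A B : Subgroup S)
    (hA : Nat.card A = p ^ N) (hB : Nat.card B = p ^ N) (hAB : A ≠ B) :
    p ^ N * p ≤ (((A : Set S) \ (B : Set S)).ncard) * p + p ^ N := by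
  have h1 : ((A : Set S) ∩ (B : Set S)).ncard + ((A : Set S) \ (B : Set S)).ncard =
      (A : Set S).ncard := Set.ncard_inter_add_ncard_diff_eq_ncard _ _ (Set.toFinite _)
  have h2 : (A : Set S).ncard = p ^ N := hA
  have h3 : ((A : Set S) ∩ (B : Set S)).ncard = Nat.card (A ⊓ B : Subgroup S) := rfl
  have h4 : Nat.card (A ⊓ B : Subgroup S) ∣ p ^ N := by
    rw [← hA]
    exact Subgroup.card_dvd_of_le inf_le_left
  obtain ⟨k, hk, hk'⟩ := (Nat.dvd_prime_pow hp).1 h4
  have h5 : k ≠ N := by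
    rintro rfl
    apply hAB
    have h6 : A ⊓ B = A := Subgroup.eq_of_le_of_card_ge inf_le_left (by rw [hk', hA])
    exact Subgroup.eq_of_le_of_card_ge (inf_eq_left.1 h6) (by rw [hA, hB])
  have h7 : Nat.card (A ⊓ B : Subgroup S) * p ≤ p ^ N := by
    rw [hk', ← pow_succ]
    exact Nat.pow_le_pow_right hp.pos (by omega)
  rw [h2, h3] at h1
  nlinarith

/-- the key step: a minimal group which is not an LCM group has small ratio -/
theorem key {S : Type w} [Group S] [Finite S] {p : ℕ} (hp : p.Prime) (hS : IsPGroup p S)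
    (hsub : ∀ H : Subgroup S, H ≠ ⊤ → IsLCM H) (hnot : ¬ IsLCM S) :
    ratio S ≤ 1 - 2 * (p - 1) / p ^ 2 := by
  have := Fact.mk hp
  have h1 : ∃ x : S, x ∉ lcmSet S := by
    by_contra hcon
    push Not at hcon
    exact hnot (Set.eq_univ_of_forall hcon)
  obtain ⟨x0, hx0⟩ := h1
  unfold lcmSet at hx0
  rw [Set.mem_setOf_eq] at hx0
  push Not at hx0
  obtain ⟨n, hn, y, hxy⟩ := hx0
  set x := x0 ^ n with hx
  set L := Nat.lcm (orderOf x) (orderOf y) with hL
  have hxL : x ^ L = 1 := orderOf_dvd_iff_pow_eq_one.1 (Nat.dvd_lcm_left _ _)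
  have hyL : y ^ L = 1 := orderOf_dvd_iff_pow_eq_one.1 (Nat.dvd_lcm_right _ _)
  have hxyL : (x * y) ^ L ≠ 1 := fun h => hxy (orderOf_dvd_iff_pow_eq_one.2 h)
  have hgen : Subgroup.closure {x, y} = ⊤ := by
    by_contra hcon
    have h2 := hsub _ hcon
    have hxm : x ∈ Subgroup.closure {x, y} := Subgroup.subset_closure (by simp)
    have hym : y ∈ Subgroup.closure {x, y} := Subgroup.subset_closure (by simp)
    have h3 : x ∈ tor _ h2 L := ⟨hxm, hxL⟩
    have h4 : y ∈ tor _ h2 L := ⟨hym, hyL⟩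
    exact hxyL ((tor _ h2 L).mul_mem h3 h4).2
  have hncomm : ¬ Commute x y := by
    intro h
    apply hxyL
    rw [h.mul_pow, hxL, hyL, one_mul]
  obtain ⟨N, hN⟩ := (IsPGroup.iff_card).1 hS
  obtain ⟨M, rfl⟩ : ∃ M, N = M + 1 := by
    refine ⟨N - 1, ?_⟩
    rcases Nat.eq_zero_or_pos N with h0 | h0
    · exfalso
      rw [h0, pow_zero] at hN
      have hsS : Subsingleton S := (Nat.card_eq_one_iff_unique.1 hN).1
      exact hncomm (Subsingleton.elim _ _)
    · omega
  have hxt : Subgroup.zpowers x ≠ ⊤ := by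
    intro h
    have h2 : y ∈ Subgroup.zpowers x := by rw [h]; trivial
    obtain ⟨k, rfl⟩ := h2
    exact hncomm ((Commute.refl x).zpow_right k)
  have hyt : Subgroup.zpowers y ≠ ⊤ := by
    intro h
    have h2 : x ∈ Subgroup.zpowers y := by rw [h]; trivial
    obtain ⟨k, hk⟩ := h2
    apply hncomm
    rw [← hk]
    exact (Commute.refl y).zpow_left k
  obtain ⟨A, hxA, hAn, hAi, hAc⟩ := exists_max hp hN _ hxt
  obtain ⟨B, hyB, hBn, hBi, hBc⟩ := exists_max hp hN _ hyt
  rw [Subgroup.zpowers_le] at hxA hyB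
  have hAt : A ≠ ⊤ := by
    rintro rfl
    rw [Subgroup.index_top] at hAi
    exact hp.one_lt.ne hAi
  have hBt : B ≠ ⊤ := by
    rintro rfl
    rw [Subgroup.index_top] at hBi
    exact hp.one_lt.ne hBi
  have hAB : A ≠ B := by
    rintro rfl
    apply hAt
    rw [eq_top_iff, ← hgen, Subgroup.closure_le]
    rintro z (rfl | hz)
    · exact hxA
    · rw [Set.mem_singleton_iff] at hz
      subst hz
      exact hyB
  have hAE := sub_tor A B (hsub A hAt) (hsub B hBt) L x y hxA hxL hyB hyL hgen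
  have hBE := sub_tor B A (hsub B hBt) (hsub A hAt) L y x hyB hyL hxA hxL
    (by rw [Set.pair_comm]; exact hgen)
  have hd1 : Disjoint (lcmSet S) ((A : Set S) \ (B : Set S)) := by
    rw [Set.disjoint_left]
    rintro u hu ⟨huA, huB⟩
    exact not_mem hp A B L hBi hAE hBE ⟨x * y, hxyL⟩ u huA huB hu
  have hd2 : Disjoint (lcmSet S) ((B : Set S) \ (A : Set S)) := by
    rw [Set.disjoint_left]
    rintro u hu ⟨huB, huA⟩
    exact not_mem hp B A L hAi hBE hAE ⟨x * y, hxyL⟩ u huB huA hu
  have hd3 : Disjoint ((A : Set S) \ (B : Set S)) ((B : Set S) \ (A : Set S)) := by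
    rw [Set.disjoint_left]
    rintro u ⟨huA, huB⟩ ⟨huB', huA'⟩
    exact huB huB'
  have hcard : (lcmSet S).ncard + (((A : Set S) \ (B : Set S)).ncard +
      ((B : Set S) \ (A : Set S)).ncard) ≤ p ^ (M + 1) := by
    rw [← Set.ncard_union_eq hd3 (Set.toFinite _) (Set.toFinite _),
      ← Set.ncard_union_eq (by
        rw [Set.disjoint_union_right]
        exact ⟨hd1, hd2⟩) (Set.toFinite _) (Set.toFinite _), ← hN]
    exact Set.ncard_le_card _
  have hc1 := card_diff hp A B hAc hBc hAB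
  have hc2 := card_diff hp B A hBc hAc hAB.symm
  set a := ((A : Set S) \ (B : Set S)).ncard
  set b := ((B : Set S) \ (A : Set S)).ncard
  have hl : Nat.card (lcmSet S) = (lcmSet S).ncard := rfl
  unfold ratio
  rw [hl, hN]
  set l := (lcmSet S).ncard
  have hp0 : (0 : ℝ) < p := by exact_mod_cast hp.pos
  have hq0 : (0 : ℝ) < (p : ℝ) ^ M := by positivity
  have hcard' : (l : ℝ) + (a + b) ≤ (p : ℝ) ^ M * p := by
    rw [← pow_succ]
    exact_mod_cast hcard
  have hc1' : (p : ℝ) ^ M * p ≤ a * p + (p : ℝ) ^ M := by exact_mod_cast hc1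
  have hc2' : (p : ℝ) ^ M * p ≤ b * p + (p : ℝ) ^ M := by exact_mod_cast hc2
  push_cast
  rw [div_le_iff₀ (by positivity), show (p : ℝ) ^ (M + 1) = (p : ℝ) ^ M * p from pow_succ _ _]
  have h8 : (1 - 2 * ((p : ℝ) - 1) / (p : ℝ) ^ 2) * ((p : ℝ) ^ M * p) =
      (p : ℝ) ^ M * p - 2 * ((p : ℝ) ^ M * (p - 1) / p) := by
    field_simp
  rw [h8]
  have h9 : (p : ℝ) ^ M * (p - 1) / p ≤ a := by
    rw [div_le_iff₀ hp0]
    linarith
  have h10 : (p : ℝ) ^ M * (p - 1) / p ≤ b := by
    rw [div_le_iff₀ hp0]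
    linarith
  linarith

theorem main {p : ℕ} (hp : p.Prime) (n : ℕ) : ∀ (G : Type w) [Group G] [Finite G],
    Nat.card G ≤ n → IsPGroup p G →
    (∀ H : Subgroup G, (1 : ℝ) - 2 * (p - 1) / p ^ 2 < ratio H) → IsLCM G := by
  induction n with
  | zero =>
    intro G _ _ h
    have := Nat.card_pos (α := G)
    omega
  | succ n ih =>
    intro G _ _ hn hG h
    by_contra hcon
    have h1 : ∀ H : Subgroup G, H ≠ ⊤ → IsLCM H := by
      intro H hH
      apply ih H _ (hG.to_subgroup H)
      · intro K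
        have e : K ≃* K.map H.subtype :=
          K.equivMapOfInjective H.subtype (Subgroup.subtype_injective H)
        rw [ratio_congr e]
        exact h _
      · have h2 : Nat.card H < Nat.card G := by
          apply lt_of_le_of_ne (Subgroup.card_le_card_group _)
          intro h
          exact hH (Subgroup.eq_top_of_card_eq _ h)
        omega
    have h2 := key hp hG h1 hcon
    have h3 := h ⊤
    rw [ratio_congr (Subgroup.topEquiv (G := G))] at h3
    linarith

/-- For every prime `p` the constant `1 - 2 (p - 1) / p ^ 2` is in the open unit interval, and every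
finite `p`-group `G` with `lcmStar G > 1 - 2 (p - 1) / p ^ 2` is an LCM group. -/
theorem result (p : ℕ) (hp : p.Prime) :
    (0 : ℝ) < 1 - 2 * (p - 1) / p ^ 2 ∧ (1 : ℝ) - 2 * (p - 1) / p ^ 2 < 1 ∧
      ∀ (G : Type w) [Group G] [Finite G], IsPGroup p G →
        (1 : ℝ) - 2 * (p - 1) / p ^ 2 < lcmStar G → IsLCM G := by
  have hp2 : (2 : ℝ) ≤ p := by exact_mod_cast hp.two_le
  refine ⟨?_, ?_, ?_⟩
  · rw [sub_pos, div_lt_one (by positivity)]
    nlinarith
  · have : (0 : ℝ) < 2 * (p - 1) / p ^ 2 := by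
      apply div_pos
      · linarith
      · positivity
    linarith
  · intro G _ _ hG h
    exact main hp _ G le_rfl hG fun H => h.trans_le (lcmStar_le H)

end Pool.Agent.Results.MP_391eb1_al.SectionRatio
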